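import Pool.Agent.Q166.PD.Meas
import Pool.Agent.Results.MP_fe58d8_pr.ArcContent
import Pool.Agent.Results.MP_fe58d8_pr.DoublePoints

/-!
# The Minkowski content measure and the natural measure of the critical interface

Critical bond percolation (`q = 1`) on `δ ℤ²` in a rectangle `D = (-A, B) × (0, H)`, with the
counterclockwise boundary arc from `a = t + i H` to `b = 0` wired and the other one dual-wired. The
interface is parametrised by its number of steps: `Rect.curve` is the piecewise linear curve on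
`[0, 1]` run at constant speed, and `Rect.time` is the number of steps times `δ ^ (7/4)`; `Rect.law`
is the law of (curve, time). Weak limits exist along a subsequence of every sequence of meshes.

There are universal constants `c, C > 0` such that for every rectangle and every weak limit
`p = (f, T)`, almost surely, for ALL open sets `U` and all closed sets `K` of the plane, as
`ρ → 0`,
`c T |{t : f t ∈ U}| ≤ liminf ρ ^ (-1/4) area {z ∈ U : dist (z, f) < ρ}`,
`limsup ρ ^ (-1/4) area {z ∈ K : dist (z, f) < ρ} ≤ C T |{t : f t ∈ K}|`.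
So the normalised areas on the neighbourhoods of the interface, as measures on the plane, are
asymptotically between `c` times and `C` times its natural occupation measure.

Definitions: `Pool.Agent.H984R4.NP.Model` (`Rect`, `pos`, `clamp`, `pl`, `X`, `Rect.dm`,
`Rect.curve`, `Rect.time`, `Rect.law`), `Pool.Agent.H984R4.NP.Defs` (`Dm`, `Dm.edges`, `Dm.wir`,
`Dm.cfg`, `Dm.walk`, `Dm.len`) and `Pool.Agent.H984R3.Per.Defs` (states, `ae`, `mv`, `rt`, `nxt`,
`orb`).
-/

set_option autoImplicit false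

namespace Pool.Agent.Results.MP_216314_pr.MinkowskiMeasure

open H984N MeasureTheory Filter Topology

theorem result : ∃ c C : ℝ, 0 < c ∧ 0 < C ∧ ∀ R : Rect,
    (∀ δ : ℕ → ℝ, (∀ i, 0 < δ i) → Tendsto δ atTop (𝓝 0) →
      ∃ φ : ℕ → ℕ, StrictMono φ ∧ ∃ μ : ProbabilityMeasure X,
        Tendsto (fun i => R.law (δ (φ i))) atTop (𝓝 μ)) ∧
    ∀ δ : ℕ → ℝ, (∀ i, 0 < δ i) → Tendsto δ atTop (𝓝 0) → ∀ μ : ProbabilityMeasure X,
      Tendsto (fun i => R.law (δ i)) atTop (𝓝 μ) →
      ∀ᵐ p ∂(μ : Measure X), 0 < p.2 ∧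
        (∀ U : Set ℂ, IsOpen U → ENNReal.ofReal (c * p.2) * volume (p.1 ⁻¹' U) ≤
          liminf (fun ρ : ℝ => volume (U ∩ Metric.thickening ρ (Set.range p.1)) /
            ENNReal.ofReal (ρ ^ (1/4 : ℝ))) (𝓝[>] 0)) ∧
        (∀ K : Set ℂ, IsClosed K →
          limsup (fun ρ : ℝ => volume (K ∩ Metric.thickening ρ (Set.range p.1)) /
            ENNReal.ofReal (ρ ^ (1/4 : ℝ))) (𝓝[>] 0) ≤
          ENNReal.ofReal (C * p.2) * volume (p.1 ⁻¹' K)) := by
  obtain ⟨c, C, hc, hC, h⟩ := Pool.Agent.Results.MP_fe58d8_pr.ArcContent.result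
  refine ⟨c / 2, C, by linarith, hC, fun R => ⟨(h R).1, fun δ hδ hlim μ hμ => ?_⟩⟩
  filter_upwards [(h R).2 δ hδ hlim μ hμ,
    (Pool.Agent.Results.MP_fe58d8_pr.DoublePoints.result R).2 δ hδ hlim μ hμ] with p p1 p2
  have hN : Pool.Agent.Q166.PT.Nice p.1 c C p.2 0 1 := by
    unfold Pool.Agent.Q166.PT.Nice
    filter_upwards [p1.2.1] with ρ hρ s t _ hst _
    exact hρ s t hst
  have hD : volume (Pool.Agent.Q166.PT.Db p.1) = 0 := by
    refine Pool.Agent.Q166.PD.null_of_dim (lt_of_le_of_lt ?_ Pool.Agent.Q166.PD.lt_one)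
    exact p2.2.1.le
  exact ⟨p1.1, fun U hU => Pool.Agent.Q166.PD.low_open hc hC p1.1 hN hD hU,
    fun K hK => Pool.Agent.Q166.PD.up_closed hC p1.1 hN hK⟩

end Pool.Agent.Results.MP_216314_pr.MinkowskiMeasure
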