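import Pool.Agent.Q218.RM.Acc
import Pool.Agent.Q218.RM.Log

/-!
The interface of critical bond percolation (`q = 1`) in a rectangle at all scales `1 / n`, in one
configuration of the edges of `ℤ²`.
-/

set_option autoImplicit false

namespace Pool.Agent.Results.MP_216314_pr.ScaleMixing

open H974 H934E MeasureTheory TopologicalSpace Filter Topology
open H984H (Conf perc)
open Pool.Agent.Q218.RM (Bx ms ms_pos tr logAvg)

/-- Let `R` be a rectangle, read the interfaces of `R` at all meshes `1 / n` from one configuration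
`ω` of independent fair coins on the edges of `ℤ²`, and let `tr R n ω` be the trace of the interface.
(1) Decorrelation of scales: a bounded function of the coins in `[-m, m]²` and a bounded Lipschitz
function of the trace at mesh `1 / n` are almost uncorrelated for `m ≪ n`.
(2) Zero-one law: every event of the sequence of the traces which does not change under perturbations
which tend to zero in the Hausdorff distance has probability `0` or `1`.
(3) Almost sure limit theorem.
(4) Along any sequence `N_i → ∞`, the logarithmic averages of the point masses at the traces of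
almost every configuration and the logarithmic averages of the laws have the same weak limits.
(5) If the law of the trace converges to `μ` as `n → ∞`, then the logarithmic averages of the point
masses at the traces of almost every single configuration converge to `μ`.
(6) Almost surely, every point of the support of every subsequential limit in law is a limit point of
the sequence of the traces of the single configuration. -/
theorem result : ∀ R : Rect,
    (∃ C c : ℝ, 0 < C ∧ 0 < c ∧ ∀ m n : ℕ, 1 ≤ m → m ≤ n →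
      ∀ h : Conf → ℝ, Measurable h → (∀ ω ω' : Conf, (∀ e ∈ Bx m, ω e = ω' e) → h ω = h ω') →
      (∀ ω, |h ω| ≤ 1) → ∀ g : NonemptyCompacts ℂ → ℝ, (∀ x, |g x| ≤ 1) →
      (∀ x y, |g x - g y| ≤ dist x y) →
      |∫ ω, h ω * g (tr R n ω) ∂perc - (∫ ω, h ω ∂perc) * ∫ ω, g (tr R n ω) ∂perc| ≤
        C * ((m : ℝ) / n) ^ c) ∧
    (∀ B : Set (ℕ → NonemptyCompacts ℂ), MeasurableSet B →
      (∀ x y : ℕ → NonemptyCompacts ℂ, Tendsto (fun n => dist (x n) (y n)) atTop (𝓝 0) →
        (x ∈ B ↔ y ∈ B)) →
      perc {ω | (fun n => tr R n ω) ∈ B} = 0 ∨ perc {ω | (fun n => tr R n ω) ∈ B} = 1) ∧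
    (∀ᵐ ω ∂perc, ∀ g : NonemptyCompacts ℂ → ℝ, Continuous g → (∃ G : ℝ, ∀ x, |g x| ≤ G) →
      Tendsto (fun N => logAvg (fun n => g (tr R n ω)) N -
        logAvg (fun n => ∫ x, g x ∂(R.law (ms_pos n) : Measure (NonemptyCompacts ℂ))) N)
        atTop (𝓝 0)) ∧
    (∀ᵐ ω ∂perc, ∀ φ : ℕ → ℕ, Tendsto φ atTop atTop →
      ∀ μ : ProbabilityMeasure (NonemptyCompacts ℂ),
      ((∀ g : NonemptyCompacts ℂ → ℝ, Continuous g → (∃ G : ℝ, ∀ x, |g x| ≤ G) →
        Tendsto (fun i => logAvg (fun n => g (tr R n ω)) (φ i)) atTop (𝓝 (∫ x, g x ∂μ))) ↔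
      (∀ g : NonemptyCompacts ℂ → ℝ, Continuous g → (∃ G : ℝ, ∀ x, |g x| ≤ G) →
        Tendsto (fun i => logAvg (fun n =>
          ∫ x, g x ∂(R.law (ms_pos n) : Measure (NonemptyCompacts ℂ))) (φ i)) atTop
          (𝓝 (∫ x, g x ∂μ))))) ∧
    (∀ μ : ProbabilityMeasure (NonemptyCompacts ℂ),
      Tendsto (fun n => R.law (ms_pos n)) atTop (𝓝 μ) →
      ∀ᵐ ω ∂perc, ∀ g : NonemptyCompacts ℂ → ℝ, Continuous g → (∃ G : ℝ, ∀ x, |g x| ≤ G) →
        Tendsto (logAvg fun n => g (tr R n ω)) atTop (𝓝 (∫ x, g x ∂μ))) ∧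
    (∀ᵐ ω ∂perc, ∀ (φ : ℕ → ℕ) (μ : ProbabilityMeasure (NonemptyCompacts ℂ)),
      Tendsto φ atTop atTop → Tendsto (fun i => R.law (ms_pos (φ i))) atTop (𝓝 μ) →
      ∀ x : NonemptyCompacts ℂ,
        (∀ r : ℝ, 0 < r → 0 < (μ : Measure (NonemptyCompacts ℂ)) (Metric.ball x r)) →
        ∀ r : ℝ, 0 < r → ∃ᶠ n in atTop, dist (tr R n ω) x < r) := by
  intro R
  have int_eq : ∀ (n : ℕ) (g : NonemptyCompacts ℂ → ℝ), Continuous g →
      ∫ x, g x ∂(R.law (ms_pos n) : Measure (NonemptyCompacts ℂ)) =
        ∫ ω, g (tr R n ω) ∂perc := by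
    intro n g gc
    rw [← Pool.Agent.Q218.RM.tr_law, integral_map
      (Pool.Agent.Q218.RM.tr_meas R n).aemeasurable gc.aestronglyMeasurable]
  have hmain : ∀ᵐ ω ∂perc, ∀ g : NonemptyCompacts ℂ → ℝ, Continuous g →
      (∃ G : ℝ, ∀ x, |g x| ≤ G) →
      Tendsto (fun N => logAvg (fun n => g (tr R n ω)) N -
        logAvg (fun n => ∫ x, g x ∂(R.law (ms_pos n) : Measure (NonemptyCompacts ℂ))) N)
        atTop (𝓝 0) := by
    filter_upwards [Pool.Agent.Q218.RM.aslt R] with ω hω g gc hb
    refine (hω g gc hb).congr fun N => ?_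
    unfold Pool.Agent.Q218.DC.lav logAvg
    rw [← sub_div, ← Finset.sum_sub_distrib]
    congr 1
    apply Finset.sum_congr rfl
    intro n _
    beta_reduce
    rw [int_eq n g gc]
    ring
  refine ⟨Pool.Agent.Q218.RM.dec R, fun B mB hB => Pool.Agent.Q218.RM.zero_one R mB hB,
    hmain, ?_, ?_, Pool.Agent.Q218.RM.acc R⟩
  · filter_upwards [hmain] with ω hω φ hφ μ
    constructor
    · intro h g gc hb
      have h5 := (h g gc hb).sub ((hω g gc hb).comp hφ)
      rw [sub_zero] at h5
      refine h5.congr fun i => ?_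
      simp only [Function.comp_apply]
      ring
    · intro h g gc hb
      have h5 := (h g gc hb).add ((hω g gc hb).comp hφ)
      rw [add_zero] at h5
      refine h5.congr fun i => ?_
      simp only [Function.comp_apply]
      ring
  · intro μ hμ
    filter_upwards [hmain] with ω hω g gc hb
    obtain ⟨G, hG⟩ := hb
    have h5 : Tendsto (fun n => ∫ x, g x ∂(R.law (ms_pos n) :
        Measure (NonemptyCompacts ℂ))) atTop
        (𝓝 (∫ x, g x ∂(μ : Measure (NonemptyCompacts ℂ)))) := by
      have h6 := ProbabilityMeasure.tendsto_iff_forall_integral_tendsto.1 hμ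
      exact h6 (BoundedContinuousFunction.ofNormedAddCommGroup g gc G fun f => by
        rw [Real.norm_eq_abs]; exact hG f)
    have h7 := (Pool.Agent.Q218.RM.logAvg_tendsto h5).add (hω g gc ⟨G, hG⟩)
    rw [add_zero] at h7
    refine h7.congr fun N => ?_
    exact add_sub_cancel _ _

end Pool.Agent.Results.MP_216314_pr.ScaleMixing
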