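import Mathlib
import Pool.Agent.Q217.FK.Count

/-!
# How often the interface of critical bond percolation (`q = 1`) touches the four sides of the rectangle

The rectangle is `[0, m + 1/2] × [0, k + 1/2]` in lattice units, the left and lower sides are wired, the right and upper
sides are free, and the interface runs from the lower right to the upper left corner, as in the problem. Each of the four
sides contains one of the two ends of the interface; distances on a side are measured from this end.

1. An interval `[y, y + r)` of a side, `1 ≤ r ≤ y ≤ min (m, k) / 2`, is touched with probability of order `(r / y)^(1/3)`.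
2. The mean number of the blocks `[i r, (i + 1) r)`, `n ≤ i < 2 n`, which are touched is of order `n^(2/3)`.
3. The number of these blocks is of the exact order `n^(2/3)` with a probability bounded below.

The constants are the same for all rectangles, all block lengths `r ≥ 1` (in particular `r = 1`, the number of the
boundary vertices which the interface touches), all `n ≥ 1` and all four sides. These are the exponents of chordal
`SLE_6`, whose intersection with the boundary has dimension `2/3`. The starting result `TouchingDimension` of this folder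
is about the weak limits `δ → 0`; here the mesh is fixed and the scales go down to the lattice spacing.

Definitions: `Pool.Agent.H985R2.BTDefs` (`wired`, `cut`, `bulk`, `weight`, `rcP`, `InWired`, `InFree`, `Interface`),
`Pool.Agent.H985R3.IL.Defs` (`rcE`), `Pool.Agent.Q217.FK.Count` (`Side`, `Touch`, `TouchBlock`, `blocks`).

The estimates for the right side are in `Pool.Agent.H985R2` (helper985); the other sides follow by the duality
and the transposition of `Pool.Agent.Q217.FK.Sym`.
-/

set_option autoImplicit false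

namespace Pool.Agent.Results.MP_216314_pr.TouchingCount

open H985BT H985IL Pool.Agent.Q217.FK

/-- **Theorem.** Touching probabilities, mean and order of magnitude of the number of touched blocks, on all four
sides of the rectangle. -/
theorem result : ∃ c C δ : ℝ, 0 < c ∧ 0 < C ∧ 0 < δ ∧ ∀ (s : Side) (m k : ℕ),
    (∀ y r : ℕ, 1 ≤ r → r ≤ y → 2 * y ≤ m → 2 * y ≤ k →
      c * ((r : ℝ) / y) ^ (1/3 : ℝ) ≤ rcP 1 m k (fun ω => ∃ h : ℕ, y ≤ h ∧ h < y + r ∧ Touch s m k ω h) ∧
      rcP 1 m k (fun ω => ∃ h : ℕ, y ≤ h ∧ h < y + r ∧ Touch s m k ω h) ≤ C * ((r : ℝ) / y) ^ (1/3 : ℝ)) ∧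
    (∀ n r : ℕ, 1 ≤ n → 1 ≤ r → 4 * (n * r) ≤ m → 4 * (n * r) ≤ k →
      (c * (n : ℝ) ^ (2/3 : ℝ) ≤ rcE 1 m k (fun ω => (blocks s m k ω n r : ℝ)) ∧
        rcE 1 m k (fun ω => (blocks s m k ω n r : ℝ)) ≤ C * (n : ℝ) ^ (2/3 : ℝ)) ∧
      δ ≤ rcP 1 m k (fun ω => c * (n : ℝ) ^ (2/3 : ℝ) ≤ blocks s m k ω n r ∧
        (blocks s m k ω n r : ℝ) ≤ C * (n : ℝ) ^ (2/3 : ℝ))) := by
  obtain ⟨c1, C1, hc1, hC1, h1⟩ := touch_interval
  obtain ⟨c2, C2, hc2, hC2, h2⟩ := touch_mean
  obtain ⟨c3, C3, δ, hc3, hC3, hδ, h3⟩ := touch_count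
  refine ⟨min c1 (min c2 c3), max C1 (max C2 C3), δ, by positivity, by positivity, hδ, fun s m k =>
    ⟨fun y r hr hry hm hk => ?_, fun n r hn hr hm hk => ⟨?_, ?_⟩⟩⟩
  · obtain ⟨a, b⟩ := h1 s m k y r hr hry hm hk
    have hp : 0 ≤ ((r : ℝ) / y) ^ (1/3 : ℝ) := by positivity
    exact ⟨(mul_le_mul_of_nonneg_right (min_le_left _ _) hp).trans a,
      b.trans (mul_le_mul_of_nonneg_right (le_max_left _ _) hp)⟩
  · obtain ⟨a, b⟩ := h2 s m k n r hn hr hm hk
    have hp : 0 ≤ (n : ℝ) ^ (2/3 : ℝ) := by positivity
    exact ⟨(mul_le_mul_of_nonneg_right ((min_le_right _ _).trans (min_le_left _ _)) hp).trans a,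
      b.trans (mul_le_mul_of_nonneg_right ((le_max_left _ _).trans (le_max_right _ _)) hp)⟩
  · have hp : 0 ≤ (n : ℝ) ^ (2/3 : ℝ) := by positivity
    refine (h3 s m k n r hn hr hm hk).trans ?_
    classical
    rw [rcP_card, rcP_card]
    refine div_le_div_of_nonneg_right ?_ (by positivity)
    norm_cast
    refine Finset.card_le_card fun ω hω => ?_
    rw [Finset.mem_filter] at hω ⊢
    refine ⟨hω.1, ?_, ?_⟩
    · exact (mul_le_mul_of_nonneg_right ((min_le_right _ _).trans (min_le_right _ _)) hp).trans hω.2.1
    · exact hω.2.2.trans (mul_le_mul_of_nonneg_right ((le_max_right _ _).trans (le_max_right _ _)) hp)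

end Pool.Agent.Results.MP_216314_pr.TouchingCount
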