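import Pool.Agent.Q166.PD.Dim
import Pool.Agent.Q166.PD.Ae

/-!
# Box and packing dimensions along the critical interface

Critical bond percolation (`q = 1`) on `δ ℤ²` in a rectangle `D = (-A, B) × (0, H)`, with the
counterclockwise boundary arc from `a = t + i H` to `b = 0` wired and the other one dual-wired. The
interface is parametrised by its number of steps: `Rect.curve` is the piecewise linear curve on
`[0, 1]` run at constant speed, and `Rect.time` is the number of steps times `δ ^ (7/4)`; `Rect.law`
is the law of (curve, time). Weak limits exist along a subsequence of every sequence of meshes.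

For every weak limit, almost surely, simultaneously for ALL sets `E` of times, the upper box
dimension, the lower box dimension and the packing dimension of the image of `E` are `7/4` times
those of `E`; and for all sets `E` of times of positive (outer) Lebesgue measure, in particular for
all arcs, the three dimensions of the image are `7/4`.

Definitions: `Pool.Agent.Q166.PD.{Core,Img}`: `cov A r` is the number of closed balls of radius `r`
which are necessary to cover `A` (Mathlib's external covering number), `ubdim A` is the infimum of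
the `s ≥ 0` such that `cov A r ≤ r ^ (-s)` for all small `r > 0`, `lbdim A` is the infimum of the
`s ≥ 0` such that `cov A r ≤ r ^ (-s)` for arbitrarily small `r > 0`, and `pdim A` is the infimum of
`sup_i ubdim (B i)` over all countable covers of `A`. `Pool.Agent.H984R4.NP.Model` (`Rect`, `pos`,
`clamp`, `pl`, `X`, `Rect.dm`, `Rect.curve`, `Rect.time`, `Rect.law`), `Pool.Agent.H984R4.NP.Defs`
(`Dm`, `Dm.edges`, `Dm.wir`, `Dm.cfg`, `Dm.walk`, `Dm.len`) and `Pool.Agent.H984R3.Per.Defs`
(states, `ae`, `mv`, `rt`, `nxt`, `orb`).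
-/

set_option autoImplicit false

namespace Pool.Agent.Results.MP_216314_pr.UniformPackingDimension

open H984N MeasureTheory Filter Topology Pool.Agent.Q166.PD

theorem result (R : Rect) :
    (∀ δ : ℕ → ℝ, (∀ i, 0 < δ i) → Tendsto δ atTop (𝓝 0) →
      ∃ φ : ℕ → ℕ, StrictMono φ ∧ ∃ μ : ProbabilityMeasure X,
        Tendsto (fun i => R.law (δ (φ i))) atTop (𝓝 μ)) ∧
    ∀ δ : ℕ → ℝ, (∀ i, 0 < δ i) → Tendsto δ atTop (𝓝 0) → ∀ μ : ProbabilityMeasure X,
      Tendsto (fun i => R.law (δ i)) atTop (𝓝 μ) →
      ∀ᵐ p ∂(μ : Measure X),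
        (∀ E : Set unitInterval, ubdim (p.1 '' E) = 7 / 4 * ubdim E ∧
          lbdim (p.1 '' E) = 7 / 4 * lbdim E ∧ pdim (p.1 '' E) = 7 / 4 * pdim E) ∧
        ∀ E : Set unitInterval, volume E ≠ 0 →
          ubdim (p.1 '' E) = 7 / 4 ∧ lbdim (p.1 '' E) = 7 / 4 ∧ pdim (p.1 '' E) = 7 / 4 := by
  refine ⟨(reg_ae R).1, fun δ hδ hlim μ hμ => ?_⟩
  filter_upwards [(reg_ae R).2 δ hδ hlim μ hμ] with p hreg
  exact ⟨fun E => ⟨ubdim_image hreg E, lbdim_image hreg E, pdim_image hreg E⟩,
    fun E hE => dims_pos hreg hE⟩

end Pool.Agent.Results.MP_216314_pr.UniformPackingDimension
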